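import Pool.Agent.NNe.Chk
import Pool.Agent.NNe.Slots

set_option linter.all false
set_option maxRecDepth 1000000
namespace Pool.Agent.NNr.R11_5_11_12

open Pool.Agent.NNe

noncomputable def SI0_0 : Nat := (nat_lit 0xc030080200802004010040100401004000000000000)
noncomputable def SW0_0 : Nat := (nat_lit 0x160040050024010003008803c01c00d00380180040100060014002000)
noncomputable def RV0_0 : Nat := (nat_lit 0x880b508801508802d18201e10000808803408805708804718202510000d20400e18202808804d08807608808108808a204000182000)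
noncomputable def CO0_0 : Nat := (nat_lit 0x297840290c40255840255810255800251c4016ac40166440166410166400156820156810152c4012b04012744011784011002011001)
noncomputable def Y0_0_0_1 : Nat := (nat_lit 0x7000000000200000000070000000002000000007f000000003200000000690000000000000000007b0000000032)
noncomputable def Y0_0_2_3 : Nat := (nat_lit 0x30000000002000000000300000000020000000003000000000000000000030000000000)
noncomputable def C0_0 : Cd := (Cd.mk (nat_lit 18) (nat_lit 5) (nat_lit 320) SI0_0 SW0_0 RV0_0 CO0_0 (Sl.cons (Sd.mk (nat_lit 4) (nat_lit 4) (nat_lit 0) (nat_lit 5) (Sb.cons (nat_lit 4) (nat_lit 0) (nat_lit 3) (Sb.cons (nat_lit 8) (nat_lit 3) (nat_lit 2) Sb.nil)) (Bl.r Y0_0_0_1 (nat_lit 1) Bl.nil)) (Sl.cons (Sd.mk (nat_lit 5) (nat_lit 4) (nat_lit 5) (nat_lit 7) (Sb.cons (nat_lit 4) (nat_lit 0) (nat_lit 3) (Sb.cons (nat_lit 8) (nat_lit 3) (nat_lit 4) Sb.nil)) (Bl.c Y0_0_0_1 (nat_lit 10) (nat_lit 0) Bl.nil)) (Sl.cons (Sd.mk (nat_lit 9) (nat_lit 8) (nat_lit 12) (nat_lit 4) (Sb.cons (nat_lit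 4) (nat_lit 0) (nat_lit 4) Sb.nil) (Bl.r Y0_0_2_3 (nat_lit 3) Bl.nil)) (Sl.cons (Sd.mk (nat_lit 10) (nat_lit 8) (nat_lit 16) (nat_lit 2) (Sb.cons (nat_lit 4) (nat_lit 0) (nat_lit 2) Sb.nil) (Bl.c Y0_0_2_3 (nat_lit 8) (nat_lit 2) Bl.nil)) Sl.nil)))))
noncomputable def SI0_1 : Nat := (nat_lit 0x1405014050140501405014040100401004010040100400c0300c0300c0300c0300c02008020080200802008010040100401004010040100000000000000000000)
noncomputable def SW0_1 : Nat := (nat_lit 0x1980c805402100c004001e00e00380c4052028010007c03c0170068018060027013009403a01c00b003000a02f012006c02a014005801000602e01680b004601a009802801200201580880320120088020002000)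
noncomputable def RV0_1 : Nat := (nat_lit 0x2040061820090880ad0880b608801608800f20400918200e08801208803f18201c10000608802e18201f10000908803508803c08803108805808804818202610000e20400f18202908804e08805408804a08807708808208808b20400118200108809208800018200308805e20401218202c0880a90880b108806620401618203208806308807208807d08808688801f98201108808e982014900000)
noncomputable def CO0_1 : Nat := (nat_lit 0x2a80202a80102a7440297840290c40288840288820288810280c40269c40265410265400255840255810255800251c40249c40241c4016ac40166440166410166400156820156810152c4014ac40142c4012b04012744011784011002011001010b8401004401004100aa0400aa0200aa0100a7440097840092c4008a82008a810082c4002b04002744001784001104001101000b84000141000140)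
noncomputable def Y0_1_1_0 : Nat := (nat_lit 0xff000000000000000000f4000000001000000000f5000000000100000000ff000000000100000000ff000000000100000000ff000000000000000000f0000000001000000000f0000000000000000000f80000000000)
noncomputable def Y0_1_2_3 : Nat := (nat_lit 0x1ff000000000000000001ff000000000000000001e300000000000000000183000000018300000001a3000000000000000001ff000000000000000001ff000000003000000001a70000000000)
noncomputable def Y0_1_4_5 : Nat := (nat_lit 0x3f000000000000000000390000000000000000003b000000000a00000001ff00000000000000000079000000000000000000fb000000000a00000001ff000000000000000001ff000000000000000001ff0000000000)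
noncomputable def C0_1 : Cd := (Cd.mk (nat_lit 52) (nat_lit 6) (nat_lit 546) SI0_1 SW0_1 RV0_1 CO0_1 (Sl.cons (Sd.mk (nat_lit 0) (nat_lit 0) (nat_lit 0) (nat_lit 8) (Sb.cons (nat_lit 0) (nat_lit 0) (nat_lit 3) (Sb.cons (nat_lit 4) (nat_lit 3) (nat_lit 3) (Sb.cons (nat_lit 8) (nat_lit 6) (nat_lit 2) Sb.nil))) (Bl.c Y0_1_1_0 (nat_lit 18) (nat_lit 1) Bl.nil)) (Sl.cons (Sd.mk (nat_lit 2) (nat_lit 0) (nat_lit 8) (nat_lit 9) (Sb.cons (nat_lit 0) (nat_lit 0) (nat_lit 3) (Sb.cons (nat_lit 4) (nat_lit 3) (nat_lit 2) (Sb.cons (nat_lit 8) (nat_lit 5) (nat_lit 4) Sb.nil))) (Bl.r Y0_1_1_0 (nat_lit 0) Bl.nil)) (Sl.cons (Sd.mk (nat_lit 4) (nat_lit 4) (nat_lit 17) (nat_lit 8) (Sb.cons (nat_lit 0) (nat_lit 0) (nat_lit 3) (Sb.cons (nat_lit 4) (nat_lit 3) (nat_lit 3) (Sb.cons (nat_lit 8) (nat_lit 6) (nat_lit 2) Sb.nil))) (Bl.r Y0_1_2_3 (nat_lit 3) Bl.nil)) (Sl.cons (Sd.mk (nat_lit 5) (nat_lit 4) (nat_lit 25) (nat_lit 9) (Sb.cons (nat_lit 0) (nat_lit 0) (nat_lit 2) (Sb.cons (nat_lit 4) (nat_lit 2) (nat_lit 3)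 (Sb.cons (nat_lit 8) (nat_lit 5) (nat_lit 4) Sb.nil))) (Bl.c Y0_1_2_3 (nat_lit 16) (nat_lit 2) Bl.nil)) (Sl.cons (Sd.mk (nat_lit 9) (nat_lit 8) (nat_lit 34) (nat_lit 9) (Sb.cons (nat_lit 0) (nat_lit 0) (nat_lit 2) (Sb.cons (nat_lit 4) (nat_lit 2) (nat_lit 4) (Sb.cons (nat_lit 8) (nat_lit 6) (nat_lit 3) Sb.nil))) (Bl.r Y0_1_4_5 (nat_lit 5) Bl.nil)) (Sl.cons (Sd.mk (nat_lit 10) (nat_lit 8) (nat_lit 43) (nat_lit 9) (Sb.cons (nat_lit 0) (nat_lit 0) (nat_lit 4) (Sb.cons (nat_lit 4) (nat_lit 4) (nat_lit 2) (Sb.cons (nat_lit 8) (nat_lit 6) (nat_lit 3) Sb.nil))) (Bl.c Y0_1_4_5 (nat_lit 18) (nat_lit 4) Bl.nil)) Sl.nil)))))))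
noncomputable def SI0_2 : Nat := (nat_lit 0xc0300c0300c0300c020080200802004010040100401004000000000000)
noncomputable def SW0_2 : Nat := (nat_lit 0xb805802000b0050024008015007803801000300a004c02400d00380180040110060014002000)
noncomputable def RV0_2 : Nat := (nat_lit 0x20400718200a0880ae08801020400a18200f08801308804018201d10000708803d08803208805f20401318202d0880aa20401718203308806408807308807e08808f982015900001)
noncomputable def CO0_2 : Nat := (nat_lit 0x2a80202a80102a7440288840288820288810280c40269c40265410265400249c40241c400aa0400aa0200aa0100a744008a82008a810082c4002b04002744000b84000141000140)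
noncomputable def Y0_2_1_0 : Nat := (nat_lit 0x1f000000001e00000000000000000000000000001c0000000000000000001f000000000000000000000000000000000000001c0000000000000000001f000000001e)
noncomputable def Y0_2_2_3 : Nat := (nat_lit 0x3b000000003a0000000019000000000900000000190000000000000000003b000000003a000000003b000000003a)
noncomputable def C0_2 : Cd := (Cd.mk (nat_lit 24) (nat_lit 7) (nat_lit 772) SI0_2 SW0_2 RV0_2 CO0_2 (Sl.cons (Sd.mk (nat_lit 0) (nat_lit 0) (nat_lit 0) (nat_lit 5) (Sb.cons (nat_lit 0) (nat_lit 0) (nat_lit 3) (Sb.cons (nat_lit 8) (nat_lit 3) (nat_lit 2) Sb.nil)) (Bl.c Y0_2_1_0 (nat_lit 14) (nat_lit 1) Bl.nil)) (Sl.cons (Sd.mk (nat_lit 2) (nat_lit 0) (nat_lit 5) (nat_lit 7) (Sb.cons (nat_lit 0) (nat_lit 0) (nat_lit 3) (Sb.cons (nat_lit 8) (nat_lit 3) (nat_lit 4) Sb.nil)) (Bl.r Y0_2_1_0 (nat_lit 0) Bl.nil)) (Sl.cons (Sd.mk (nat_lit 9) (nat_lit 8) (nat_lit 12) (nat_lit 5) (Sb.cons (nat_lit 0) (nat_lit 0) (nat_lit 2) (Sb.cons (nat_lit 8) (nat_lit 2) (nat_lit 3) Sb.nil)) (Bl.r Y0_2_2_3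 (nat_lit 3) Bl.nil)) (Sl.cons (Sd.mk (nat_lit 10) (nat_lit 8) (nat_lit 17) (nat_lit 7) (Sb.cons (nat_lit 0) (nat_lit 0) (nat_lit 4) (Sb.cons (nat_lit 8) (nat_lit 4) (nat_lit 3) Sb.nil)) (Bl.c Y0_2_2_3 (nat_lit 10) (nat_lit 2) Bl.nil)) Sl.nil)))))
noncomputable def SI0_3 : Nat := (nat_lit 0xc0300802004010040000000)
noncomputable def SW0_3 : Nat := (nat_lit 0xa0020020004012007000002000c003)
noncomputable def RV0_3 : Nat := (nat_lit 0x8805508804b0880930880010880b2088067088065088087888020088090)
noncomputable def CO0_3 : Nat := (nat_lit 0x14ac40142c4010b840100440097840092c40082c4001784001104000b84)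
noncomputable def C0_3 : Cd := (Cd.mk (nat_lit 10) (nat_lit 10) (nat_lit 25) SI0_3 SW0_3 RV0_3 CO0_3 (Sl.cons (Sd.mk (nat_lit 0) (nat_lit 0) (nat_lit 0) (nat_lit 3) (Sb.cons (nat_lit 0) (nat_lit 0) (nat_lit 1) (Sb.cons (nat_lit 4) (nat_lit 1) (nat_lit 2) Sb.nil)) Bl.nil) (Sl.cons (Sd.mk (nat_lit 2) (nat_lit 0) (nat_lit 3) (nat_lit 3) (Sb.cons (nat_lit 0) (nat_lit 0) (nat_lit 1) (Sb.cons (nat_lit 4) (nat_lit 1) (nat_lit 2) Sb.nil)) Bl.nil) (Sl.cons (Sd.mk (nat_lit 4) (nat_lit 4) (nat_lit 6) (nat_lit 2) (Sb.cons (nat_lit 0) (nat_lit 0) (nat_lit 2) Sb.nil) Bl.nil) (Sl.cons (Sd.mk (nat_lit 5) (nat_lit 4) (nat_lit 8) (nat_lit 2) (Sb.cons (nat_lit 0) (nat_lit 0) (nat_lit 2) Sb.nil) Bl.nil) Sl.nil)))))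
noncomputable def SI0_4 : Nat := (nat_lit 0x200802008020080200802008020080200802008020080200802008020080200701c0701c0701c0701c0701c0701c06018060180601806018060180601806018060180601806018060180601806018060180601806018060180601806018060140501405014050140501405014050140501405014050140401004010040100401004010040100401004010040100401004010040100400c0300c0300c0300c0300c0300c0300c0300c0300c0300c0300c0300c0300c02008020080200802008020080200801004010040100401004010040100401004010040100401000000000000000000000000000000)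
noncomputable def SW0_4 : Nat := (nat_lit 0x3781b80b405c02c81600ae05b02b01540a8041021810007e04201f00f407802a014807803a00b00501b40d805302900ec074028013807003600900401a40d606803381980d4065032018c09e05102701340a004c025812806e03901b00d406803801980c8062026012806003401700b0054032014009804800e00605d82e81440a104a824412c094049824812008f04700c0048011008003c00a0b805a02e416e0b605a82cc1640b1050027c118089046822c114088043821805e02e016808c01c00405782b01600ae05682ac1540a904f0274108080042820c10408103f81f80fa062024812008e00d00182a014e09c04d81f00f60610230030004001000029814a09a04c81e40ea07a03c01dc0ec07403981c80c005f02f0114058022052028c13009703881c00ba044015808404001f)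
noncomputable def RV0_4 : Nat := (nat_lit 0x8806f08801e0880b008806d08806218203010001108801c08800d38600518200c0880b908806c20401518203108801b08800e20400818200d08806b08801a08806e08801d08806a08801908805c08804308805308803b08805208803a08805108803908805b08804208805008803808807a88802a888022b8600798201308800b38600020400218200208808588802898201690000208800908800338600218200508808d88802788802398201790000308800808800420400318200688802608800708809688802988802498201890000408800a0880052040041820078880250880060880bb0880a60880b80880af0880a80880a408801808800c38600418200b3860032040051820080880b708801708801120400b1820100880140880a208809a08804108803018202110000b08802c38600918201a0880a008809e08809c08809808803718201b10000508802b38600818201908802f18202010000a08803608803e0880330880a108809908805a20401018202a08804520400d18202308809f08809d08809b08809708804f08804618202410000c08804420400c18202208805908804918202710000f08805608804c08809508807908808c08808408807c0880710880780880830880940880023860011820040880ba0880a50880b40880ac0880a70880a308806908806118202f10001008805d20401118202b08806020401418202e0880ab0880b308806808809108807508808908808008807b08807008807408807f088088888021b86006982012)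
noncomputable def CO0_4 : Nat := (nat_lit 0x3aac403a8c403a74403a6c403a64403a64103a64003a4c403a44403a44303a4410397840396c40396820396810394c40394840394820394810392c40390c4038ac40388c40382c40380c4036ac40369c40366c40365c40356c40355c40352c40351c4034ac40349c40342c40341c4032b040329c40329040329030329010328c40328030328020328010327440325c40325410325400324c40324440324430324410317840315c40315840315810315800314c40314840314820314810311c40310c4030b840309c40309840309810309800308c40308840308820308810301c40300c402bb8402bb0402b78402b74402b34402b30402b0c402b04402b04302b04102b00302b00202b0010297840290c40288840288820288810280c4027b84027b040279c40279840279810279800279040279030279010277840277440273440273040271c40271410271400271040271030271010255840255810255800251c40249c40241c4017b84017b04017ac4017a82017a81017a04017a02017a010177840177440173440173040172c4017244017241017240017204017202017201016ac4016644016641016640014ac40142c4013b84013b04013784013744013344013304012b04012744010b8401004401004301004100bb8400bb0400b78400b74400b34400b30400b2c400b24400b24100b24000b20400b20200b20100aa0400aa0200aa0100a7440097840092c4003b84003b04003784003744003344003304002b04002744001784001104001103001101)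
noncomputable def Y0_4_1_0 : Nat := (nat_lit 0x3d0000000004000000003d000000003d000000003d0000000004000000003d0000000039000000003d0000000039000000003d000000003d000000003d0000000000000000003d0000000000000000003d0000000000000000003d0000000000000000003d0000000000000000003d0000000001000000003d00000000000000000fcd00000000000000000fcd0000000fc10000000fcd0000000fc00000000fcd00000005c00000000ff000000005c00000000ff00000000000)
noncomputable def Y0_4_2_3 : Nat := (nat_lit 0x3f0000000037000000003f0000000037000000003f0000000037000000003f0000000037000000003f0000000037000000003f00000000370001ffffc300002400800001ffffc300002400800001fffffc00002400800001fffffc0000240080000000000000000000000001fffffc0000240080)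
noncomputable def Y0_4_4_5 : Nat := (nat_lit 0x3f0000000000000000003f0000000000000000003f0000000000000000003f0000000004000000003f0000000004000000003f0000000000000000003f000000000400000000000000000000000000003f0000000004000000003f0000000000000000003f0000000000000000003f0000000000000000003f0000000000000000003f0000000000000000003f0000000000000000003f0000000000000000003f000000000400000000000000000000000000003f0000000004000007facf0000000084000007facf0000000084000007facf000007e000000007facf0000000000000007faf00000000000000007faf00000000000)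
noncomputable def Y0_4_6_6 : Nat := (nat_lit 0x10120200000000000000000000000000000000000000000000000000000000000000000000000000000000000000000000003e17c200000a01400000000000000000000000001012020000101202000010120200000000000000101202000000000000000000000000000000000000000000000000000000000000000000000000003e17c200000a01400000101202000010120200000000000000000000000010120200000000002010000202000000000000000000000000000000000000000000000000000000000000000000000000000000000000000000743c0007c2100400014020100002022010000202201000020220100002022010000202000000000000000000000000000000743c0007c210040001402010101000000000000000000000000000000000000000000000000000000000000000000000000000000000000000000000743c3e100010040a000020101010002010101000201010100020101010002010101000000000000000000000000000000000743c3e100010040a0000)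
noncomputable def Y0_4_7_7 : Nat := (nat_lit 0xaa00000000000000000000000000000000000000aa0000000000000000000000000000000000000a0a0000000000000000000000000000000000000a0a0000000000000000000000000000000000000aa00000000000000000000000000000000000000aa00000000000)
noncomputable def Y0_4_8_8 : Nat := (nat_lit 0x23d50000000140000000000000000000000000000215000000000000000023d5000000014000000002150000000000000000021500000000000000000215000000021500000000000000000000000000000000000000000000000000000000000000000000000000000000000082000500000000000000c3400500000140000000820005000082000500008200050000000000000000000000000000000000000000000000000000000000000000000000000000000000000000000000c340050000014000000000000000000000000000c363d00000014140000000000000000000000000c363d0000001414000000000000000000000)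
noncomputable def C0_4 : Cd := (Cd.mk (nat_lit 188) (nat_lit 4) (nat_lit 4369) SI0_4 SW0_4 RV0_4 CO0_4 (Sl.cons (Sd.mk (nat_lit 0) (nat_lit 0) (nat_lit 0) (nat_lit 12) (Sb.cons (nat_lit 4) (nat_lit 0) (nat_lit 4) (Sb.cons (nat_lit 8) (nat_lit 4) (nat_lit 2) (Sb.cons (nat_lit 12) (nat_lit 6) (nat_lit 6) Sb.nil))) (Bl.c Y0_4_1_0 (nat_lit 38) (nat_lit 1) Bl.nil)) (Sl.cons (Sd.mk (nat_lit 2) (nat_lit 0) (nat_lit 12) (nat_lit 19) (Sb.cons (nat_lit 4) (nat_lit 0) (nat_lit 2) (Sb.cons (nat_lit 8) (nat_lit 2) (nat_lit 4) (Sb.cons (nat_lit 12) (nat_lit 6) (nat_lit 13) Sb.nil))) (Bl.r Y0_4_1_0 (nat_lit 0) Bl.nil)) (Sl.cons (Sd.mk (nat_lit 4) (nat_lit 4) (nat_lit 31) (nat_lit 12) (Sb.cons (nat_lit 0) (nat_lit 0) (nat_lit 4) (Sb.cons (nat_lit 8) (nat_lit 4) (nat_lit 2) (Sb.cons (nat_lit 12) (nat_lit 6) (nat_lit 6) Sb.nil))) (Bl.r Y0_4_2_3 (nat_lit 3) Bl.nil)) (Sl.cons (Sd.mk (nat_lit 5) (nat_lit 4) (nat_lit 43) (nat_lit 25) (Sb.cons (nat_lit 0) (nat_lit 0) (nat_lit 2) (Sb.cons (nat_lit 8) (nat_lit 2) (nat_lit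 4) (Sb.cons (nat_lit 12) (nat_lit 6) (nat_lit 19) Sb.nil))) (Bl.c Y0_4_2_3 (nat_lit 24) (nat_lit 2) Bl.nil)) (Sl.cons (Sd.mk (nat_lit 9) (nat_lit 8) (nat_lit 68) (nat_lit 25) (Sb.cons (nat_lit 0) (nat_lit 0) (nat_lit 2) (Sb.cons (nat_lit 4) (nat_lit 2) (nat_lit 4) (Sb.cons (nat_lit 12) (nat_lit 6) (nat_lit 19) Sb.nil))) (Bl.r Y0_4_4_5 (nat_lit 5) Bl.nil)) (Sl.cons (Sd.mk (nat_lit 10) (nat_lit 8) (nat_lit 93) (nat_lit 19) (Sb.cons (nat_lit 0) (nat_lit 0) (nat_lit 4) (Sb.cons (nat_lit 4) (nat_lit 4) (nat_lit 2) (Sb.cons (nat_lit 12) (nat_lit 6) (nat_lit 13) Sb.nil))) (Bl.c Y0_4_4_5 (nat_lit 50) (nat_lit 4) Bl.nil)) (Sl.cons (Sd.mk (nat_lit 12) (nat_lit 12) (nat_lit 112) (nat_lit 39) (Sb.cons (nat_lit 0) (nat_lit 0) (nat_lit 11) (Sb.cons (nat_lit 4) (nat_lit 11) (nat_lit 11) (Sb.cons (nat_lit 8) (nat_lit 22) (nat_lit 17) Sb.nil))) (Bl.r Y0_4_6_6 (nat_lit 6) (Bl.c Y0_4_6_6 (nat_lit 78) (nat_lit 6) Bl.nil))) (Sl.cons (Sd.mk (nat_lit 13) (nat_lit 12) (nat_lit 151) (nat_lit 12) (Sb.cons (nat_lit 0)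 (nat_lit 0) (nat_lit 4) (Sb.cons (nat_lit 4) (nat_lit 4) (nat_lit 4) (Sb.cons (nat_lit 8) (nat_lit 8) (nat_lit 4) Sb.nil))) (Bl.r Y0_4_7_7 (nat_lit 7) (Bl.c Y0_4_7_7 (nat_lit 24) (nat_lit 7) Bl.nil))) (Sl.cons (Sd.mk (nat_lit 14) (nat_lit 12) (nat_lit 163) (nat_lit 25) (Sb.cons (nat_lit 0) (nat_lit 0) (nat_lit 4) (Sb.cons (nat_lit 4) (nat_lit 4) (nat_lit 10) (Sb.cons (nat_lit 8) (nat_lit 14) (nat_lit 11) Sb.nil))) (Bl.r Y0_4_8_8 (nat_lit 8) (Bl.c Y0_4_8_8 (nat_lit 50) (nat_lit 8) Bl.nil))) Sl.nil))))))))))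
noncomputable def CL0 : Cl := (Cl.cons C0_0 (Cl.cons C0_1 (Cl.cons C0_2 (Cl.cons C0_3 (Cl.cons C0_4 Cl.nil)))))
noncomputable def ZL0_0 : Zl := (Zl.cons (nat_lit 0) (nat_lit 0) (nat_lit 5) (Zl.cons (nat_lit 17) (nat_lit 5) (nat_lit 8) (Zl.cons (nat_lit 0) (nat_lit 0) (nat_lit 0) (Zl.cons (nat_lit 6) (nat_lit 13) (nat_lit 2) (Zl.cons (nat_lit 31) (nat_lit 15) (nat_lit 12) Zl.nil)))))
noncomputable def ZZ0 : ZZ := (ZZ.cons ZL0_0 ZZ.nil)
noncomputable def SI1_0 : Nat := (nat_lit 0x8020040100400)
noncomputable def SW1_0 : Nat := (nat_lit 0x60020028010002000)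
noncomputable def RV1_0 : Nat := (nat_lit 0x8801618200908801a18200a18200b182000)
noncomputable def CO1_0 : Nat := (nat_lit 0x25584025581016644016641015681011001)
noncomputable def Y1_0_0_1 : Nat := (nat_lit 0xe000)
noncomputable def C1_0 : Cd := (Cd.mk (nat_lit 6) (nat_lit 5) (nat_lit 320) SI1_0 SW1_0 RV1_0 CO1_0 (Sl.cons (Sd.mk (nat_lit 4) (nat_lit 4) (nat_lit 0) (nat_lit 1) (Sb.cons (nat_lit 4) (nat_lit 0) (nat_lit 1) Sb.nil) (Bl.r Y1_0_0_1 (nat_lit 1) Bl.nil)) (Sl.cons (Sd.mk (nat_lit 5) (nat_lit 4) (nat_lit 1) (nat_lit 3) (Sb.cons (nat_lit 4) (nat_lit 0) (nat_lit 1) (Sb.cons (nat_lit 8) (nat_lit 1) (nat_lit 2) Sb.nil)) (Bl.c Y1_0_0_1 (nat_lit 2) (nat_lit 0) Bl.nil)) (Sl.cons (Sd.mk (nat_lit 9) (nat_lit 8) (nat_lit 4) (nat_lit 2) (Sb.cons (nat_lit 4) (nat_lit 0) (nat_lit 2) Sb.nil) Bl.nil) Sl.nil))))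
noncomputable def SI1_1 : Nat := (nat_lit 0x50100400c0300c02008010040100000)
noncomputable def SW1_1 : Nat := (nat_lit 0x40058024014008001801800200c003800800a000)
noncomputable def RV1_1 : Nat := (nat_lit 0x18200410000110000210000420400708801d20400008800018200c08803820400c88800e900000)
noncomputable def CO1_1 : Nat := (nat_lit 0x28881026540025580016640015682014ac401100201004400aa01009784008a82001104000140)
noncomputable def Y1_1_1_0 : Nat := (nat_lit 0x20000008000004000)
noncomputable def Y1_1_2_3 : Nat := (nat_lit 0x800000c000)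
noncomputable def Y1_1_4_5 : Nat := (nat_lit 0x8000002000)
noncomputable def C1_1 : Cd := (Cd.mk (nat_lit 13) (nat_lit 6) (nat_lit 546) SI1_1 SW1_1 RV1_1 CO1_1 (Sl.cons (Sd.mk (nat_lit 0) (nat_lit 0) (nat_lit 0) (nat_lit 2) (Sb.cons (nat_lit 0) (nat_lit 0) (nat_lit 1) (Sb.cons (nat_lit 4) (nat_lit 1) (nat_lit 1) Sb.nil)) (Bl.c Y1_1_1_0 (nat_lit 6) (nat_lit 1) Bl.nil)) (Sl.cons (Sd.mk (nat_lit 2) (nat_lit 0) (nat_lit 2) (nat_lit 3) (Sb.cons (nat_lit 0) (nat_lit 0) (nat_lit 1) (Sb.cons (nat_lit 4) (nat_lit 1) (nat_lit 1) (Sb.cons (nat_lit 8) (nat_lit 2) (nat_lit 1) Sb.nil))) (Bl.r Y1_1_1_0 (nat_lit 0) Bl.nil)) (Sl.cons (Sd.mk (nat_lit 4) (nat_lit 4) (nat_lit 5) (nat_lit 2) (Sb.cons (nat_lit 0) (nat_lit 0) (nat_lit 1) (Sb.cons (nat_lit 4) (nat_lit 1) (nat_lit 1) Sb.nil)) (Bl.r Y1_1_2_3 (nat_lit 3) Bl.nil)) (Sl.cons (Sd.mk (nat_lit 5) (nat_lit 4) (nat_lit 7) (nat_lit 3) (Sb.cons (nat_lit 0) (nat_lit 0) (nat_lit 1) (Sb.cons (nat_lit 4) (nat_lit 1) (nat_lit 1) (Sb.cons (nat_lit 8) (nat_lit 2) (nat_lit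 1) Sb.nil))) (Bl.c Y1_1_2_3 (nat_lit 4) (nat_lit 2) Bl.nil)) (Sl.cons (Sd.mk (nat_lit 9) (nat_lit 8) (nat_lit 10) (nat_lit 2) (Sb.cons (nat_lit 4) (nat_lit 0) (nat_lit 1) (Sb.cons (nat_lit 8) (nat_lit 1) (nat_lit 1) Sb.nil)) (Bl.r Y1_1_4_5 (nat_lit 5) Bl.nil)) (Sl.cons (Sd.mk (nat_lit 10) (nat_lit 8) (nat_lit 12) (nat_lit 1) (Sb.cons (nat_lit 0) (nat_lit 0) (nat_lit 1) Sb.nil) (Bl.c Y1_1_4_5 (nat_lit 4) (nat_lit 4) Bl.nil)) Sl.nil)))))))
noncomputable def SI1_2 : Nat := (nat_lit 0x300c0300c0200802004010000000000)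
noncomputable def SW1_2 : Nat := (nat_lit 0xc004001400600b00380080140010048018008000)
noncomputable def RV1_2 : Nat := (nat_lit 0x18200208803708800808800908801918200808801808801f08802008802708802c08802e982006)
noncomputable def CO1_2 : Nat := (nat_lit 0x2a80102a7440288840280c40269c40265410241c400aa040082c4002b04002744000b84000141)
noncomputable def Y1_2_1_0 : Nat := (nat_lit 0x7803c01e00f)
noncomputable def Y1_2_2_3 : Nat := (nat_lit 0x1c006001800c01c006)
noncomputable def C1_2 : Cd := (Cd.mk (nat_lit 13) (nat_lit 7) (nat_lit 772) SI1_2 SW1_2 RV1_2 CO1_2 (Sl.cons (Sd.mk (nat_lit 0) (nat_lit 0) (nat_lit 0) (nat_lit 4) (Sb.cons (nat_lit 0) (nat_lit 0) (nat_lit 2) (Sb.cons (nat_lit 8) (nat_lit 2) (nat_lit 2) Sb.nil)) (Bl.c Y1_2_1_0 (nat_lit 4) (nat_lit 1) Bl.nil)) (Sl.cons (Sd.mk (nat_lit 2) (nat_lit 0) (nat_lit 4) (nat_lit 2) (Sb.cons (nat_lit 0) (nat_lit 0) (nat_lit 1) (Sb.cons (nat_lit 8) (nat_lit 1) (nat_lit 1) Sb.nil)) (Bl.r Y1_2_1_0 (nat_lit 0) Bl.nil)) (Sl.cons (Sd.mk (nat_lit 9) (nat_lit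 8) (nat_lit 6) (nat_lit 3) (Sb.cons (nat_lit 0) (nat_lit 0) (nat_lit 1) (Sb.cons (nat_lit 8) (nat_lit 1) (nat_lit 2) Sb.nil)) (Bl.r Y1_2_2_3 (nat_lit 3) Bl.nil)) (Sl.cons (Sd.mk (nat_lit 10) (nat_lit 8) (nat_lit 9) (nat_lit 4) (Sb.cons (nat_lit 0) (nat_lit 0) (nat_lit 2) (Sb.cons (nat_lit 8) (nat_lit 2) (nat_lit 2) Sb.nil)) (Bl.c Y1_2_2_3 (nat_lit 6) (nat_lit 2) Bl.nil)) Sl.nil)))))
noncomputable def C1_3 : Cd := (Cd.mk (nat_lit 0) (nat_lit 10) (nat_lit 25) (nat_lit 0) (nat_lit 0) (nat_lit 0) (nat_lit 0) Sl.nil)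
noncomputable def SI1_4 : Nat := (nat_lit 0x1c0701c0701c0701c0701c0701c06018060180601806018060180601805014050140501404010040100400c0300c0300c0300802008020080200401004010040100400000000000000000)
noncomputable def SW1_4 : Nat := (nat_lit 0x12008c03c01d00c804c02400d006001800a0220108080038018008804001600a004801000603b01d00c005e02e00400e407002d00b805806e02c00d806800e00201b00d405602a000800006803301480a004e01f00a80c8062026012805001e00e)
noncomputable def RV1_4 : Nat := (nat_lit 0x8802408800d08800718200320400b08802208800b08802308800c08802108800a88801308800620400108800220400288801108800488801208800520400388801008800308803b08803408803608803220400420400508801518200708801408801710000320400820400608801b10000508801e08801c08803008802908802b08802608800118200108803a08803308803508803120400920400a08803908802f08802808802a08802508802d88800f982005)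
noncomputable def CO1_4 : Nat := (nat_lit 0x3aac403a8c403a44403a4410396820392c40390c4038ac40388c40382c40380c40329c40328c40328020324440314820311c40310c40309c40308c40308820301c40300c402bb8402bb0402b34402b30402b002028882027904027901027104025584025580017a82017202016644016640014ac40142c4013b84013b0401334401330401004401004100bb8400bb0400b34400b30400b20200aa02009784003b84003b04003344003304001784001104001101)
noncomputable def Y1_4_1_0 : Nat := (nat_lit 0x4000003800000a000003800000200003c8000070000)
noncomputable def Y1_4_2_3 : Nat := (nat_lit 0x7800001e000007800001e0000180000060000)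
noncomputable def Y1_4_4_5 : Nat := (nat_lit 0x200000080000020000018000078000)
noncomputable def Y1_4_6_6 : Nat := (nat_lit 0x2900000a40004090000000000000000000000000000010800000000000000000)
noncomputable def Y1_4_7_7 : Nat := (nat_lit 0x40a0000c000000000000c000000000000c00000000000)
noncomputable def C1_4 : Cd := (Cd.mk (nat_lit 60) (nat_lit 4) (nat_lit 4369) SI1_4 SW1_4 RV1_4 CO1_4 (Sl.cons (Sd.mk (nat_lit 0) (nat_lit 0) (nat_lit 0) (nat_lit 7) (Sb.cons (nat_lit 4) (nat_lit 0) (nat_lit 3) (Sb.cons (nat_lit 12) (nat_lit 3) (nat_lit 4) Sb.nil)) (Bl.c Y1_4_1_0 (nat_lit 14) (nat_lit 1) Bl.nil)) (Sl.cons (Sd.mk (nat_lit 2) (nat_lit 0) (nat_lit 7) (nat_lit 7) (Sb.cons (nat_lit 4) (nat_lit 0) (nat_lit 1) (Sb.cons (nat_lit 8) (nat_lit 1) (nat_lit 1) (Sb.cons (nat_lit 12) (nat_lit 2) (nat_lit 5) Sb.nil))) (Bl.r Y1_4_1_0 (nat_lit 0) Bl.nil)) (Sl.cons (Sd.mk (nat_lit 4) (nat_lit 4) (nat_lit 14) (nat_lit 6) (Sb.cons (nat_lit 0) (nat_lit 0) (nat_lit 2) (Sb.cons (nat_lit 12) (nat_lit 2) (nat_lit 4) Sb.nil))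 (Bl.r Y1_4_2_3 (nat_lit 3) Bl.nil)) (Sl.cons (Sd.mk (nat_lit 5) (nat_lit 4) (nat_lit 20) (nat_lit 6) (Sb.cons (nat_lit 0) (nat_lit 0) (nat_lit 2) (Sb.cons (nat_lit 8) (nat_lit 2) (nat_lit 2) (Sb.cons (nat_lit 12) (nat_lit 4) (nat_lit 2) Sb.nil))) (Bl.c Y1_4_2_3 (nat_lit 12) (nat_lit 2) Bl.nil)) (Sl.cons (Sd.mk (nat_lit 9) (nat_lit 8) (nat_lit 26) (nat_lit 5) (Sb.cons (nat_lit 4) (nat_lit 0) (nat_lit 2) (Sb.cons (nat_lit 12) (nat_lit 2) (nat_lit 3) Sb.nil)) (Bl.r Y1_4_4_5 (nat_lit 5) Bl.nil)) (Sl.cons (Sd.mk (nat_lit 10) (nat_lit 8) (nat_lit 31) (nat_lit 6) (Sb.cons (nat_lit 0) (nat_lit 0) (nat_lit 1) (Sb.cons (nat_lit 12) (nat_lit 1) (nat_lit 5) Sb.nil)) (Bl.c Y1_4_4_5 (nat_lit 10) (nat_lit 4) Bl.nil)) (Sl.cons (Sd.mk (nat_lit 12) (nat_lit 12) (nat_lit 37) (nat_lit 12) (Sb.cons (nat_lit 0) (nat_lit 0) (nat_lit 5) (Sb.cons (nat_lit 4) (nat_lit 5) (nat_lit 3) (Sb.cons (nat_lit 8) (nat_lit 8) (nat_lit 4) Sb.nil))) (Bl.r Y1_4_6_6 (nat_lit 6) (Bl.c Y1_4_6_6 (nat_lit 24) (nat_lit 6) Bl.nil))) (Sl.cons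 (Sd.mk (nat_lit 14) (nat_lit 12) (nat_lit 49) (nat_lit 11) (Sb.cons (nat_lit 0) (nat_lit 0) (nat_lit 4) (Sb.cons (nat_lit 4) (nat_lit 4) (nat_lit 3) (Sb.cons (nat_lit 8) (nat_lit 7) (nat_lit 4) Sb.nil))) (Bl.r Y1_4_7_7 (nat_lit 7) (Bl.c Y1_4_7_7 (nat_lit 22) (nat_lit 7) Bl.nil))) Sl.nil)))))))))
noncomputable def CL1 : Cl := (Cl.cons C1_0 (Cl.cons C1_1 (Cl.cons C1_2 (Cl.cons C1_3 (Cl.cons C1_4 Cl.nil)))))
noncomputable def AL1_0 : Nat := (nat_lit 0x2c65d)
noncomputable def A41_0 : Nat := (nat_lit 0xc641)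
noncomputable def IX1_0 : Nat := (nat_lit 0x5000000000000400000000000000000000000000000000000000000000000000030000000000002000000000000000000000000000000000000001000000000000000000000000000000000000000000000000000000000000000000000000000000)
noncomputable def OL1_0 : Nat := (nat_lit 0x1e00380050009000c0000)
noncomputable def AL1_1 : Nat := (nat_lit 0x51236624f411)
noncomputable def A41_1 : Nat := (nat_lit 0x112064245411)
noncomputable def IX1_1 : Nat := (nat_lit 0xc000000000000000000000000000000000000000000000000000b00000000000000000000000000000000000000a0000000000000000000000000000000000000000000000000000000000000000000000000000000000000000009000000000000800000000000000000000000000000000000000700000000000000000000000000000000000000000000000000000000000000006000000000000000000000000000000000000005000000000000000000000000000000000000000000000000000400000000000000000000000003000000000000000000000000020000000000000000000000000000000000000000000000000000000000000000000000000000010000000000000000000000000000000000000000000000000000)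
noncomputable def OL1_1 : Nat := (nat_lit 0xb00140025003c007400d001500240038006000a00080000)
noncomputable def AL1_2 : Nat := (nat_lit 0x77b83e)
noncomputable def A41_2 : Nat := (nat_lit 0x73983e)
noncomputable def IX1_2 : Nat := (nat_lit 0xc000000000000b000000000000a00000000000000000000000000000000000000900000000000080000000000007000000000000000000000000000000000000006000000000000500000000000000000000000000000000000000000000000000000000000000000000000000000400000000000030000000000002000000000000100000000000000000000000000)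
noncomputable def OL1_2 : Nat := (nat_lit 0x5800a801400220040007800c00160014002000300040004)
noncomputable def AL1_3 : Nat := (nat_lit 0)
noncomputable def A41_3 : Nat := (nat_lit 0)
noncomputable def IX1_3 : Nat := (nat_lit 0)
noncomputable def OL1_3 : Nat := (nat_lit 0)
noncomputable def AL1_4 : Nat := (nat_lit 0xd3adbf80032971bdb7bfc10835017812005bffefe09effd)
noncomputable def A41_4 : Nat := (nat_lit 0xc0a41f8002281005a2bcc10805012810004be62e6092ccd)
noncomputable def IX1_4 : Nat := (nat_lit 0x3b000000000003a000000000000000000000000000000000000000000000000000000000000000000000000000000000000000003900000000000000000000000038000000000000000000000000000000000000037000000000000000000000000000000000000000000000000000000000000000000000000000036000000000003500000000000340000000000033000000000003200000000000310000000000000000000000000000000000000000000000000000000000000000000000000000000000000000000000000000000000000000000000000000000000000000000000000000000000000000000000000000000000003000000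0000000000000000000000000000000000000000000002f0000000000000000000000002e000000000000000000000000000000000000000000000000000000000000000000000000000000000000000002d000000000000000000000000000000000000000000000000000000000000000000000000000000000000000000000000000000000000000000000000000000002c0000000000000000000000002b000000000002a000000000000000000000000290000000000000000000000000000000000000000000000000028000000000000000000000000270000000000000000000000002600000000000250000000000024000000000002300000000000000000000000000000000000002200000000000210000000000000000000000000000000000000000000000000000000000000000000000000000200000000000000000000000000000000000000000000000000000000000000001f00000000000000000000000000000000000000000000000000000000000000000000000000000000000000000000000000000000000000000001e0000000000000000000000001d0000000000000000000000000000000000000000000000000000000000000000000000000000000000000000000000000000001c00000000000000000000000000000000000001b0000000000000000000000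001a0000000000000000000000000000000000000000000000000000000000000000000000000000000000000000019000000000000000000000000000000000000000000000000000000000000000000000000000000000000000000000000000000000000000000000000000000000000000000000000000000000000000000000000000000000000180000000000000000000000000000000000000170000000000000000000000001600000000000150000000000014000000000001300000000000120000000000000000000000000000000000000110000000000010000000000000000000000000000000000000000000000000000f0000000000000000000000000e000000000000d000000000000c00000000000000000000000000000000000000b000000000000a0000000000000000000000000000000000000000000000000000000000000000000000000000090000000000000000000000000000000000000080000000000000000000000000000000000000070000000000000000000000000600000000000050000000000000000000000000000000000000040000000000003000000000000000000000000000000000000002000000000000100000000000000000000000000)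
noncomputable def OL1_4 : Nat := (nat_lit 0x5d80ba016602c405700a8014e029805280a401460254048808f011001f803e007b00f201d4039807100e001bc037006b00d4019002f805600a801300248047008000c8017802d005800ac0150029004c0094010801f003c007400d001900260040006800b0014001c003000300040000)
noncomputable def TL1 : Tl := (Tl.cons (Tr.mk AL1_0 A41_0 IX1_0 OL1_0) (Tl.cons (Tr.mk AL1_1 A41_1 IX1_1 OL1_1) (Tl.cons (Tr.mk AL1_2 A41_2 IX1_2 OL1_2) (Tl.cons (Tr.mk AL1_3 A41_3 IX1_3 OL1_3) (Tl.cons (Tr.mk AL1_4 A41_4 IX1_4 OL1_4) Tl.nil)))))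
noncomputable def ZL1_0 : Zl := (Zl.cons (nat_lit 0) (nat_lit 0) (nat_lit 6) (Zl.cons (nat_lit 0) (nat_lit 0) (nat_lit 13) (Zl.cons (nat_lit 0) (nat_lit 0) (nat_lit 13) (Zl.cons (nat_lit 0) (nat_lit 0) (nat_lit 0) (Zl.cons (nat_lit 0) (nat_lit 0) (nat_lit 60) Zl.nil)))))
noncomputable def ZZ1 : ZZ := (ZZ.cons ZL1_0 ZZ.nil)
noncomputable def C2_0 : Cd := (Cd.mk (nat_lit 0) (nat_lit 5) (nat_lit 320) (nat_lit 0) (nat_lit 0) (nat_lit 0) (nat_lit 0) Sl.nil)
noncomputable def C2_1 : Cd := (Cd.mk (nat_lit 0) (nat_lit 6) (nat_lit 546) (nat_lit 0) (nat_lit 0) (nat_lit 0) (nat_lit 0) Sl.nil)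
noncomputable def C2_2 : Cd := (Cd.mk (nat_lit 0) (nat_lit 7) (nat_lit 772) (nat_lit 0) (nat_lit 0) (nat_lit 0) (nat_lit 0) Sl.nil)
noncomputable def C2_3 : Cd := (Cd.mk (nat_lit 0) (nat_lit 10) (nat_lit 25) (nat_lit 0) (nat_lit 0) (nat_lit 0) (nat_lit 0) Sl.nil)
noncomputable def C2_4 : Cd := (Cd.mk (nat_lit 0) (nat_lit 4) (nat_lit 4369) (nat_lit 0) (nat_lit 0) (nat_lit 0) (nat_lit 0) Sl.nil)
noncomputable def CL2 : Cl := (Cl.cons C2_0 (Cl.cons C2_1 (Cl.cons C2_2 (Cl.cons C2_3 (Cl.cons C2_4 Cl.nil)))))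
noncomputable def AL2_0 : Nat := (nat_lit 0)
noncomputable def A42_0 : Nat := (nat_lit 0)
noncomputable def IX2_0 : Nat := (nat_lit 0)
noncomputable def OL2_0 : Nat := (nat_lit 0)
noncomputable def AL2_1 : Nat := (nat_lit 0)
noncomputable def A42_1 : Nat := (nat_lit 0)
noncomputable def IX2_1 : Nat := (nat_lit 0)
noncomputable def OL2_1 : Nat := (nat_lit 0)
noncomputable def AL2_2 : Nat := (nat_lit 0xfff)
noncomputable def A42_2 : Nat := (nat_lit 0)
noncomputable def IX2_2 : Nat := (nat_lit 0)
noncomputable def OL2_2 : Nat := (nat_lit 0)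
noncomputable def AL2_3 : Nat := (nat_lit 0)
noncomputable def A42_3 : Nat := (nat_lit 0)
noncomputable def IX2_3 : Nat := (nat_lit 0)
noncomputable def OL2_3 : Nat := (nat_lit 0)
noncomputable def AL2_4 : Nat := (nat_lit 0)
noncomputable def A42_4 : Nat := (nat_lit 0)
noncomputable def IX2_4 : Nat := (nat_lit 0)
noncomputable def OL2_4 : Nat := (nat_lit 0)
noncomputable def TL2 : Tl := (Tl.cons (Tr.mk AL2_0 A42_0 IX2_0 OL2_0) (Tl.cons (Tr.mk AL2_1 A42_1 IX2_1 OL2_1) (Tl.cons (Tr.mk AL2_2 A42_2 IX2_2 OL2_2) (Tl.cons (Tr.mk AL2_3 A42_3 IX2_3 OL2_3) (Tl.cons (Tr.mk AL2_4 A42_4 IX2_4 OL2_4) Tl.nil)))))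
def wf0_0 : wfC (nat_lit 40) (nat_lit 2) C0_0 = true := by decide +kernel
def pl0_0 : plCk (nat_lit 40) (nat_lit 2) (nat_lit 11) (nat_lit 0) (nat_lit 0) (nat_lit 7) (nat_lit 5) (nat_lit 4) (nat_lit 0) nl0 CL0 = true := by decide +kernel
def wf0_1 : wfC (nat_lit 40) (nat_lit 2) C0_1 = true := by decide +kernel
def pl0_1 : plCk (nat_lit 40) (nat_lit 2) (nat_lit 11) (nat_lit 0) (nat_lit 0) (nat_lit 7) (nat_lit 5) (nat_lit 4) (nat_lit 1) nl0 CL0 = true := by decide +kernel
def wf0_2 : wfC (nat_lit 40) (nat_lit 2) C0_2 = true := by decide +kernel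
def pl0_2 : plCk (nat_lit 40) (nat_lit 2) (nat_lit 11) (nat_lit 0) (nat_lit 0) (nat_lit 7) (nat_lit 5) (nat_lit 4) (nat_lit 2) nl0 CL0 = true := by decide +kernel
def wf0_3 : wfC (nat_lit 40) (nat_lit 2) C0_3 = true := by decide +kernel
def pl0_3 : plCk (nat_lit 40) (nat_lit 2) (nat_lit 11) (nat_lit 0) (nat_lit 0) (nat_lit 7) (nat_lit 5) (nat_lit 4) (nat_lit 3) nl0 CL0 = true := by decide +kernel
def wf0_4 : wfC (nat_lit 40) (nat_lit 2) C0_4 = true := by decide +kernel
def pl0_4 : plCk (nat_lit 40) (nat_lit 2) (nat_lit 11) (nat_lit 0) (nat_lit 0) (nat_lit 7) (nat_lit 5) (nat_lit 4) (nat_lit 4) nl0 CL0 = true := by decide +kernel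
def ti0_0 : tileCk (nat_lit 40) (nat_lit 2) (nat_lit 1) (nat_lit 1) (nat_lit 27) (nat_lit 11) (nat_lit 5) ZL0_0 CL0 = true := by decide +kernel
def zl0_0 : zlOK (nat_lit 27) ZL0_0 = true := by decide +kernel
def tc0_0 : tiCov (nat_lit 1) (nat_lit 0) ZZ0 C0_0 = true := by decide +kernel
def tc0_1 : tiCov (nat_lit 1) (nat_lit 1) ZZ0 C0_1 = true := by decide +kernel
def tc0_2 : tiCov (nat_lit 1) (nat_lit 2) ZZ0 C0_2 = true := by decide +kernel
def tc0_3 : tiCov (nat_lit 1) (nat_lit 3) ZZ0 C0_3 = true := by decide +kernel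
def tc0_4 : tiCov (nat_lit 1) (nat_lit 4) ZZ0 C0_4 = true := by decide +kernel
def wf1_0 : wfC (nat_lit 13) (nat_lit 2) C1_0 = true := by decide +kernel
def rf1_0 : rfCk (nat_lit 40) (nat_lit 2) (nat_lit 13) (nat_lit 2) (nat_lit 9) (nat_lit 0) (nat_lit 0) TL1 CL0 CL1 = true := by decide +kernel
def st1_0_0 : starCk (nat_lit 13) (nat_lit 2) (nat_lit 1) (nat_lit 1) (nat_lit 2) (nat_lit 4) (nat_lit 256) C1_0 = true := by decide +kernel
def sc1_0 : stCov (nat_lit 2) (nat_lit 4) (Rl.cons (nat_lit 4) (nat_lit 2) Rl.nil) C1_0 = true := by decide +kernel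
def wf1_1 : wfC (nat_lit 13) (nat_lit 2) C1_1 = true := by decide +kernel
def rf1_1 : rfCk (nat_lit 40) (nat_lit 2) (nat_lit 13) (nat_lit 2) (nat_lit 9) (nat_lit 0) (nat_lit 1) TL1 CL0 CL1 = true := by decide +kernel
def st1_1_0 : starCk (nat_lit 13) (nat_lit 2) (nat_lit 1) (nat_lit 1) (nat_lit 2) (nat_lit 5) (nat_lit 16) C1_1 = true := by decide +kernel
def sc1_1 : stCov (nat_lit 1) (nat_lit 5) (Rl.cons (nat_lit 5) (nat_lit 2) Rl.nil) C1_1 = true := by decide +kernel
def wf1_2 : wfC (nat_lit 13) (nat_lit 2) C1_2 = true := by decide +kernel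
def rf1_2 : rfCk (nat_lit 40) (nat_lit 2) (nat_lit 13) (nat_lit 2) (nat_lit 9) (nat_lit 0) (nat_lit 2) TL1 CL0 CL1 = true := by decide +kernel
def st1_2_0 : starCk (nat_lit 13) (nat_lit 2) (nat_lit 1) (nat_lit 1) (nat_lit 2) (nat_lit 4) (nat_lit 1) C1_2 = true := by decide +kernel
def sc1_2 : stCov (nat_lit 0) (nat_lit 4) (Rl.cons (nat_lit 4) (nat_lit 2) Rl.nil) C1_2 = true := by decide +kernel
def wf1_4 : wfC (nat_lit 13) (nat_lit 2) C1_4 = true := by decide +kernel
def rf1_4 : rfCk (nat_lit 40) (nat_lit 2) (nat_lit 13) (nat_lit 2) (nat_lit 9) (nat_lit 0) (nat_lit 4) TL1 CL0 CL1 = true := by decide +kernel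
def st1_4_0 : starCk (nat_lit 13) (nat_lit 2) (nat_lit 1) (nat_lit 1) (nat_lit 5) (nat_lit 26) (nat_lit 256) C1_4 = true := by decide +kernel
def sc1_4 : stCov (nat_lit 2) (nat_lit 26) (Rl.cons (nat_lit 26) (nat_lit 5) Rl.nil) C1_4 = true := by decide +kernel
def sc0_0 : stCov (nat_lit 1) (nat_lit 0) (Rl.cons (nat_lit 0) (nat_lit 18) Rl.nil) C0_0 = true := by decide +kernel
def sc0_1 : stCov (nat_lit 0) (nat_lit 0) (Rl.cons (nat_lit 0) (nat_lit 52) Rl.nil) C0_1 = true := by decide +kernel
def sc0_2 : stCov (nat_lit 0) (nat_lit 0) (Rl.cons (nat_lit 0) (nat_lit 24) Rl.nil) C0_2 = true := by decide +kernel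
def sc0_3 : stCov (nat_lit 0) (nat_lit 0) (Rl.cons (nat_lit 0) (nat_lit 10) Rl.nil) C0_3 = true := by decide +kernel
def sc0_4 : stCov (nat_lit 0) (nat_lit 0) (Rl.cons (nat_lit 0) (nat_lit 188) Rl.nil) C0_4 = true := by decide +kernel
def wf1_3 : wfC (nat_lit 13) (nat_lit 2) C1_3 = true := by decide +kernel
def rf1_3 : rfCk (nat_lit 40) (nat_lit 2) (nat_lit 13) (nat_lit 2) (nat_lit 9) (nat_lit 0) (nat_lit 3) TL1 CL0 CL1 = true := by decide +kernel
def zl1_0 : zlOK (nat_lit 60) ZL1_0 = true := by decide +kernel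
def sc1_3 : stCov (nat_lit 0) (nat_lit 0) Rl.nil C1_3 = true := by decide +kernel
def tc1_0 : tiCov (nat_lit 1) (nat_lit 0) ZZ1 C1_0 = true := by decide +kernel
def tc1_1 : tiCov (nat_lit 1) (nat_lit 1) ZZ1 C1_1 = true := by decide +kernel
def tc1_2 : tiCov (nat_lit 1) (nat_lit 2) ZZ1 C1_2 = true := by decide +kernel
def tc1_3 : tiCov (nat_lit 1) (nat_lit 3) ZZ1 C1_3 = true := by decide +kernel
def tc1_4 : tiCov (nat_lit 1) (nat_lit 4) ZZ1 C1_4 = true := by decide +kernel
def wf2_0 : wfC (nat_lit 1) (nat_lit 1) C2_0 = true := by decide +kernel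
def wf2_1 : wfC (nat_lit 1) (nat_lit 1) C2_1 = true := by decide +kernel
def wf2_2 : wfC (nat_lit 1) (nat_lit 1) C2_2 = true := by decide +kernel
def wf2_3 : wfC (nat_lit 1) (nat_lit 1) C2_3 = true := by decide +kernel
def wf2_4 : wfC (nat_lit 1) (nat_lit 1) C2_4 = true := by decide +kernel
def rf2_0 : rfCk (nat_lit 13) (nat_lit 2) (nat_lit 1) (nat_lit 1) (nat_lit 9) (nat_lit 0) (nat_lit 0) TL2 CL1 CL2 = true := by decide +kernel
def rf2_1 : rfCk (nat_lit 13) (nat_lit 2) (nat_lit 1) (nat_lit 1) (nat_lit 9) (nat_lit 0) (nat_lit 1) TL2 CL1 CL2 = true := by decide +kernel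
def rf2_2 : rfCk (nat_lit 13) (nat_lit 2) (nat_lit 1) (nat_lit 1) (nat_lit 9) (nat_lit 0) (nat_lit 2) TL2 CL1 CL2 = true := by decide +kernel
def rf2_3 : rfCk (nat_lit 13) (nat_lit 2) (nat_lit 1) (nat_lit 1) (nat_lit 9) (nat_lit 0) (nat_lit 3) TL2 CL1 CL2 = true := by decide +kernel
def rf2_4 : rfCk (nat_lit 13) (nat_lit 2) (nat_lit 1) (nat_lit 1) (nat_lit 9) (nat_lit 0) (nat_lit 4) TL2 CL1 CL2 = true := by decide +kernel
def de2_0 : deadCk (nat_lit 1) (nat_lit 1) C2_0 = true := by decide +kernel
def de2_1 : deadCk (nat_lit 1) (nat_lit 1) C2_1 = true := by decide +kernel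
def de2_2 : deadCk (nat_lit 1) (nat_lit 1) C2_2 = true := by decide +kernel
def de2_3 : deadCk (nat_lit 1) (nat_lit 1) C2_3 = true := by decide +kernel
def de2_4 : deadCk (nat_lit 1) (nat_lit 1) C2_4 = true := by decide +kernel

end Pool.Agent.NNr.R11_5_11_12
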